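import Pool.Agent.Lib.MP_fa837f_gt.P2.Iface

/-!
Module L3: from small gradients to a constant (from MO).
-/

set_option autoImplicit false

open MeasureTheory Matrix Set Filter Topology

namespace Pool.Agent.Lib.MP_fa837f_gt.P2.H46

section

variable {ι : Type} [Fintype ι] [DecidableEq ι]

omit [DecidableEq ι] in
lemma cpt (T : ℝ) : IsCompact {x : ι → ℝ | ‖x‖ ≤ T} := by
  have : {x : ι → ℝ | ‖x‖ ≤ T} = Metric.closedBall 0 T := by
    ext x
    simp
  rw [this]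
  exact isCompact_closedBall 0 T

omit [DecidableEq ι] in
lemma msK (T : ℝ) : MeasurableSet {x : ι → ℝ | ‖x‖ ≤ T} := (cpt T).isClosed.measurableSet

omit [DecidableEq ι] in
lemma iOn {f : (ι → ℝ) → ℝ} (hf : Continuous f) (T : ℝ) :
    IntegrableOn f {x : ι → ℝ | ‖x‖ ≤ T} volume :=
  hf.continuousOn.integrableOn_compact (cpt T)

lemma pd_smooth {f : (ι → ℝ) → ℝ} (hf : ContDiff ℝ (⊤ : ℕ∞) f) (p : ι) :
    ContDiff ℝ (⊤ : ℕ∞) (pd p f) := by
  have h : ContDiff ℝ (⊤ : ℕ∞) (fderiv ℝ f) := hf.fderiv_right (by exact_mod_cast le_rfl)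
  exact h.clm_apply contDiff_const

/-- The directional derivative. -/
lemma fderiv_dir (G : (ι → ℝ) → ℝ) (x v : ι → ℝ) :
    fderiv ℝ G x v = ∑ p, v p * pd p G x := by
  have h := LinearMap.pi_apply_eq_sum_univ ((fderiv ℝ G x : (ι → ℝ) →ₗ[ℝ] ℝ)) v
  have h1 : fderiv ℝ G x v = ((fderiv ℝ G x : (ι → ℝ) →ₗ[ℝ] ℝ)) v := rfl
  rw [h1, h]
  refine Finset.sum_congr rfl fun p _ => ?_
  rw [smul_eq_mul]
  congr 1
  unfold pd
  have h2 : (fun j => if p = j then (1 : ℝ) else 0) = Pi.single p 1 := by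
    funext j
    by_cases hj : p = j
    · subst hj
      simp
    · rw [if_neg hj, Pi.single_eq_of_ne (fun h => hj h.symm)]
  show (fderiv ℝ G x) (fun j => if p = j then (1 : ℝ) else 0) = _
  rw [h2]

/-- Cauchy-Schwarz on the unit interval. -/
lemma cs {f : ℝ → ℝ} (hf : Continuous f) :
    (∫ s in (0 : ℝ)..1, f s) ^ 2 ≤ ∫ s in (0 : ℝ)..1, f s ^ 2 := by
  set a := ∫ s in (0 : ℝ)..1, f s with ha
  have h0 : 0 ≤ ∫ s in (0 : ℝ)..1, (f s - a) ^ 2 :=
    intervalIntegral.integral_nonneg zero_le_one fun s _ => sq_nonneg _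
  have i1 : IntervalIntegrable (fun s => f s ^ 2) volume 0 1 := (hf.pow 2).intervalIntegrable _ _
  have i2 : IntervalIntegrable (fun s => 2 * a * f s) volume 0 1 :=
    (continuous_const.mul hf).intervalIntegrable _ _
  have i3 : IntervalIntegrable (fun _ : ℝ => a ^ 2) volume 0 1 :=
    continuous_const.intervalIntegrable _ _
  have h1 : ∫ s in (0 : ℝ)..1, (f s - a) ^ 2 = (∫ s in (0 : ℝ)..1, f s ^ 2) - a ^ 2 := by
    have e : (fun s => (f s - a) ^ 2) = fun s => f s ^ 2 - 2 * a * f s + a ^ 2 := by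
      funext s
      ring
    rw [e, intervalIntegral.integral_add (i1.sub i2) i3, intervalIntegral.integral_sub i1 i2,
      intervalIntegral.integral_const_mul, ← ha, intervalIntegral.integral_const]
    simp only [sub_zero, smul_eq_mul, one_mul]
    ring
  linarith

/-- T1. -/
lemma t1 {G : (ι → ℝ) → ℝ} (hG : ContDiff ℝ (⊤ : ℕ∞) G) (x v : ι → ℝ) :
    (G (x + v) - G x) ^ 2 ≤
      (∑ p, v p ^ 2) * ∫ s in (0 : ℝ)..1, ∑ p, pd p G (x + s • v) ^ 2 := by
  have hcp : ∀ p, Continuous (pd p G) := fun p => (pd_smooth hG p).continuous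
  have hcv : Continuous fun s : ℝ => x + s • v := by fun_prop
  have hd : ∀ s : ℝ, HasDerivAt (fun s : ℝ => G (x + s • v)) (∑ p, v p * pd p G (x + s • v)) s := by
    intro s
    have h1 : HasFDerivAt G (fderiv ℝ G (x + s • v)) (x + s • v) :=
      (hG.differentiable (by simp)).differentiableAt.hasFDerivAt
    have h2 : HasDerivAt (fun s : ℝ => x + s • v) v s := by
      have := ((hasDerivAt_id s).smul_const v).const_add x
      simpa using this
    have h3 := h1.comp_hasDerivAt s h2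
    rw [fderiv_dir] at h3
    exact h3
  have hc1 : Continuous fun s : ℝ => ∑ p, v p * pd p G (x + s • v) :=
    continuous_finsetSum _ fun p _ => continuous_const.mul ((hcp p).comp hcv)
  have hc2 : Continuous fun s : ℝ => ∑ p, pd p G (x + s • v) ^ 2 :=
    continuous_finsetSum _ fun p _ => ((hcp p).comp hcv).pow 2
  have h1 : ∫ s in (0 : ℝ)..1, ∑ p, v p * pd p G (x + s • v) = G (x + v) - G x := by
    rw [intervalIntegral.integral_eq_sub_of_hasDerivAt (fun s _ => hd s)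
      (hc1.intervalIntegrable _ _)]
    simp
  rw [← h1]
  refine (cs hc1).trans ?_
  rw [← intervalIntegral.integral_const_mul]
  refine intervalIntegral.integral_mono_on zero_le_one ((hc1.pow 2).intervalIntegrable _ _)
    ((continuous_const.mul hc2).intervalIntegrable _ _) fun s _ => ?_
  exact Finset.sum_mul_sq_le_sq_mul_sq _ _ _

omit [DecidableEq ι] in
/-- T3. -/
lemma t3 {H : (ι → ℝ) → ℝ} (hH : Continuous H) (h0 : ∀ x, 0 ≤ H x) {T R : ℝ} (w : ι → ℝ)
    (hR : T + ‖w‖ ≤ R) :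
    ∫ x in {x : ι → ℝ | ‖x‖ ≤ T}, H (x + w) ≤ ∫ x in {x : ι → ℝ | ‖x‖ ≤ R}, H x := by
  rw [← integral_indicator (msK T), ← integral_indicator (msK R),
    ← integral_add_right_eq_self ({x : ι → ℝ | ‖x‖ ≤ R}.indicator H) w]
  have hi : Integrable ({x : ι → ℝ | ‖x‖ ≤ R}.indicator H) volume :=
    (iOn hH R).integrable_indicator (msK R)
  refine integral_mono_of_nonneg (ae_of_all _ fun x => indicator_nonneg (fun _ _ => h0 _) _)
    (hi.comp_add_right w) (ae_of_all _ fun x => ?_)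
  by_cases hx : ‖x‖ ≤ T
  · have h1 : x ∈ {x : ι → ℝ | ‖x‖ ≤ T} := hx
    have h2 : x + w ∈ {x : ι → ℝ | ‖x‖ ≤ R} := by
      have := norm_add_le x w
      show ‖x + w‖ ≤ R
      linarith
    simp only [indicator_of_mem h1, indicator_of_mem h2]
    exact le_rfl
  · have h1 : x ∉ {x : ι → ℝ | ‖x‖ ≤ T} := hx
    simp only [indicator_of_notMem h1]
    exact indicator_nonneg (fun _ _ => h0 _) _

omit [DecidableEq ι] in
/-- T2. -/
lemma t2 {H : (ι → ℝ) → ℝ} (hH : Continuous H) (h0 : ∀ x, 0 ≤ H x) {T R : ℝ} (v : ι → ℝ)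
    (hR : T + ‖v‖ ≤ R) :
    ∫ x in {x : ι → ℝ | ‖x‖ ≤ T}, ∫ s in (0 : ℝ)..1, H (x + s • v) ≤
      ∫ x in {x : ι → ℝ | ‖x‖ ≤ R}, H x := by
  have e1 : ∫ x in {x : ι → ℝ | ‖x‖ ≤ T}, ∫ s in (0 : ℝ)..1, H (x + s • v) =
      ∫ x in {x : ι → ℝ | ‖x‖ ≤ T}, ∫ s in Icc (0 : ℝ) 1, H (x + s • v) := by
    refine setIntegral_congr_fun (msK T) fun x _ => ?_
    show ∫ s in (0 : ℝ)..1, H (x + s • v) = ∫ s in Icc (0 : ℝ) 1, H (x + s • v)
    rw [intervalIntegral.integral_of_le zero_le_one, integral_Icc_eq_integral_Ioc]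
  have hint : Integrable (Function.uncurry fun (x : ι → ℝ) (s : ℝ) => H (x + s • v))
      ((volume.restrict {x : ι → ℝ | ‖x‖ ≤ T}).prod (volume.restrict (Icc (0 : ℝ) 1))) := by
    rw [Measure.prod_restrict]
    have hc : Continuous (Function.uncurry fun (x : ι → ℝ) (s : ℝ) => H (x + s • v)) := by
      show Continuous fun z : (ι → ℝ) × ℝ => H (z.1 + z.2 • v)
      fun_prop
    exact hc.continuousOn.integrableOn_compact ((cpt T).prod isCompact_Icc)
  rw [e1, integral_integral_swap hint]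
  have hH0 : 0 ≤ ∫ x in {x : ι → ℝ | ‖x‖ ≤ R}, H x := integral_nonneg fun x => h0 x
  calc ∫ s in Icc (0 : ℝ) 1, ∫ x in {x : ι → ℝ | ‖x‖ ≤ T}, H (x + s • v)
      ≤ ∫ _s in Icc (0 : ℝ) 1, ∫ x in {x : ι → ℝ | ‖x‖ ≤ R}, H x := by
        refine integral_mono_of_nonneg (ae_of_all _ fun s => integral_nonneg fun x => h0 _)
          (integrable_const _) ?_
        refine (ae_restrict_iff' measurableSet_Icc).2 (ae_of_all _ fun s hs => ?_)
        refine t3 hH h0 (s • v) ?_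
        have : ‖s • v‖ ≤ ‖v‖ := by
          rw [norm_smul, Real.norm_eq_abs, abs_of_nonneg hs.1]
          exact mul_le_of_le_one_left (norm_nonneg _) hs.2
        linarith
    _ = ∫ x in {x : ι → ℝ | ‖x‖ ≤ R}, H x := by
        simp

/-- T1 - T3 together. -/
lemma t123 {G : (ι → ℝ) → ℝ} (hG : ContDiff ℝ (⊤ : ℕ∞) G) {T R : ℝ} (v : ι → ℝ)
    (hR : T + ‖v‖ ≤ R) :
    ∫ x in {x : ι → ℝ | ‖x‖ ≤ T}, (G (x + v) - G x) ^ 2 ≤
      (∑ p, v p ^ 2) * ∫ x in {x : ι → ℝ | ‖x‖ ≤ R}, ∑ p, pd p G x ^ 2 := by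
  have hcp : ∀ p, Continuous (pd p G) := fun p => (pd_smooth hG p).continuous
  have hH : Continuous fun x => ∑ p, pd p G x ^ 2 :=
    continuous_finsetSum _ fun p _ => (hcp p).pow 2
  have h0 : ∀ x, 0 ≤ ∑ p, pd p G x ^ 2 := fun x => Finset.sum_nonneg fun p _ => sq_nonneg _
  have hs0 : 0 ≤ ∑ p, v p ^ 2 := Finset.sum_nonneg fun p _ => sq_nonneg _
  refine le_trans ?_ (mul_le_mul_of_nonneg_left (t2 hH h0 v hR) hs0)
  rw [← integral_const_mul]
  have hcI : Continuous fun x : ι → ℝ => ∫ s in (0 : ℝ)..1, ∑ p, pd p G (x + s • v) ^ 2 := by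
    refine intervalIntegral.continuous_parametric_intervalIntegral_of_continuous' ?_ 0 1
    show Continuous fun z : (ι → ℝ) × ℝ => ∑ p, pd p G (z.1 + z.2 • v) ^ 2
    exact continuous_finsetSum _ fun p _ => ((hcp p).comp (by fun_prop)).pow 2
  have hcG : Continuous fun x : ι → ℝ => (G (x + v) - G x) ^ 2 := by
    have := hG.continuous
    fun_prop
  refine setIntegral_mono_on (iOn hcG T) (iOn (continuous_const.mul hcI) T) (msK T)
    fun x _ => t1 hG x v

/-- T4. -/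
lemma t4 (hMo : MoStatement) (g φ : (ι → ℝ) → ℝ)
    (hc : ∀ T : ℝ, L2c fun z => if ‖z‖ ≤ T then g z else 0) (hφ : Mol φ)
    (hl : ∀ T : ℝ, Tendsto (fun ε : ℝ => ∫ x in {x : ι → ℝ | ‖x‖ ≤ T},
          ∑ p, mollD φ (fun z => if ‖z‖ ≤ T + 1 then g z else 0) ε p x ^ 2) (𝓝[>] 0) (𝓝 0))
    (v : ι → ℝ) (T : ℝ) : ∀ᵐ x, ‖x‖ ≤ T → g (x + v) = g x := by
  set R := T + ‖v‖ with hR
  set g1 : (ι → ℝ) → ℝ := fun z => if ‖z‖ ≤ R + 1 then g z else 0 with hg1
  have hL : L2c g1 := hc (R + 1)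
  obtain ⟨hm1, hm2⟩ := hMo ι φ g1 hφ hL
  have hl' := hl R
  -- the square integrability
  have hsq : ∀ ε : ℝ, 0 < ε → Integrable fun x => (moll φ g1 ε x - g1 x) ^ 2 := by
    intro ε hε
    have hT := (hm1 ε hε).1
    have m1 : MemLp (moll φ g1 ε) 2 volume :=
      hT.1.continuous.memLp_of_hasCompactSupport hT.2
    have m2 : MemLp g1 2 volume := (memLp_two_iff_integrable_sq hL.meas).2 hL.sq
    exact (m1.sub m2).integrable_sq
  have hcont : ∀ ε : ℝ, 0 < ε → ContDiff ℝ (⊤ : ℕ∞) (moll φ g1 ε) := fun ε hε => (hm1 ε hε).1.1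
  have hdiff : Integrable fun x => (g1 (x + v) - g1 x) ^ 2 := by
    have m2 : MemLp g1 2 volume := (memLp_two_iff_integrable_sq hL.meas).2 hL.sq
    have m3 : MemLp (fun x => g1 (x + v)) 2 volume :=
      m2.comp_measurePreserving (measurePreserving_add_right volume v)
    exact (m3.sub m2).integrable_sq
  have key : ∀ ε : ℝ, 0 < ε →
      ∫ x in {x : ι → ℝ | ‖x‖ ≤ T}, (g1 (x + v) - g1 x) ^ 2 ≤
        3 * (2 * (∫ x, (moll φ g1 ε x - g1 x) ^ 2) +
          (∑ p, v p ^ 2) * ∫ x in {x : ι → ℝ | ‖x‖ ≤ R}, ∑ p, mollD φ g1 ε p x ^ 2) := by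
    intro ε hε
    set G := moll φ g1 ε with hG
    have hGs : ContDiff ℝ (⊤ : ℕ∞) G := hcont ε hε
    have hGc : Continuous G := hGs.continuous
    have hi : Integrable fun x => (G x - g1 x) ^ 2 := hsq ε hε
    have hi' : Integrable fun x => (G (x + v) - g1 (x + v)) ^ 2 := hi.comp_add_right v
    have hiG : IntegrableOn (fun x => (G (x + v) - G x) ^ 2) {x : ι → ℝ | ‖x‖ ≤ T} volume := by
      refine iOn ?_ T
      fun_prop
    have e1 : ∫ x, (G (x + v) - g1 (x + v)) ^ 2 = ∫ x, (G x - g1 x) ^ 2 :=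
      integral_add_right_eq_self (fun x => (G x - g1 x) ^ 2) v
    have b1 : ∫ x in {x : ι → ℝ | ‖x‖ ≤ T}, (G (x + v) - g1 (x + v)) ^ 2 ≤
        ∫ x, (G x - g1 x) ^ 2 := by
      rw [← e1]
      exact setIntegral_le_integral hi' (ae_of_all _ fun x => sq_nonneg _)
    have b2 : ∫ x in {x : ι → ℝ | ‖x‖ ≤ T}, (G x - g1 x) ^ 2 ≤ ∫ x, (G x - g1 x) ^ 2 :=
      setIntegral_le_integral hi (ae_of_all _ fun x => sq_nonneg _)
    have b3 := t123 hGs v (le_refl (T + ‖v‖))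
    have e2 : ∀ x, ∑ p, pd p G x ^ 2 = ∑ p, mollD φ g1 ε p x ^ 2 := by
      intro x
      refine Finset.sum_congr rfl fun p _ => ?_
      rw [(hm1 ε hε).2 p x]
    simp only [e2] at b3
    have hsum : ∫ x in {x : ι → ℝ | ‖x‖ ≤ T}, (g1 (x + v) - g1 x) ^ 2 ≤
        ∫ x in {x : ι → ℝ | ‖x‖ ≤ T}, 3 * ((G (x + v) - g1 (x + v)) ^ 2 + (G (x + v) - G x) ^ 2 +
          (G x - g1 x) ^ 2) := by
      refine setIntegral_mono_on hdiff.integrableOn
        (((hi'.integrableOn.add hiG).add hi.integrableOn).const_mul 3) (msK T) fun x _ => ?_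
      nlinarith [sq_nonneg ((G (x + v) - g1 (x + v)) + (G (x + v) - G x)),
        sq_nonneg ((G (x + v) - g1 (x + v)) - (G x - g1 x)),
        sq_nonneg ((G (x + v) - G x) - (G x - g1 x)),
        sq_nonneg ((G (x + v) - g1 (x + v)) - (G (x + v) - G x)),
        sq_nonneg ((G (x + v) - g1 (x + v)) + (G x - g1 x)),
        sq_nonneg ((G (x + v) - G x) + (G x - g1 x))]
    have hexp : ∫ x in {x : ι → ℝ | ‖x‖ ≤ T}, 3 * ((G (x + v) - g1 (x + v)) ^ 2 +
          (G (x + v) - G x) ^ 2 + (G x - g1 x) ^ 2) =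
        3 * ((∫ x in {x : ι → ℝ | ‖x‖ ≤ T}, (G (x + v) - g1 (x + v)) ^ 2) +
          (∫ x in {x : ι → ℝ | ‖x‖ ≤ T}, (G (x + v) - G x) ^ 2) +
          ∫ x in {x : ι → ℝ | ‖x‖ ≤ T}, (G x - g1 x) ^ 2) := by
      have i1 : IntegrableOn (fun x => (G (x + v) - g1 (x + v)) ^ 2 + (G (x + v) - G x) ^ 2)
          {x : ι → ℝ | ‖x‖ ≤ T} volume := hi'.integrableOn.add hiG
      rw [integral_const_mul, integral_add i1 hi.integrableOn,
        integral_add hi'.integrableOn hiG]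
    rw [hexp] at hsum
    linarith
  have hlim : Tendsto (fun ε : ℝ => 3 * (2 * (∫ x, (moll φ g1 ε x - g1 x) ^ 2) +
          (∑ p, v p ^ 2) * ∫ x in {x : ι → ℝ | ‖x‖ ≤ R}, ∑ p, mollD φ g1 ε p x ^ 2))
      (𝓝[>] 0) (𝓝 0) := by
    have := ((hm2.const_mul 2).add (hl'.const_mul (∑ p, v p ^ 2))).const_mul 3
    simpa using this
  have hD : ∫ x in {x : ι → ℝ | ‖x‖ ≤ T}, (g1 (x + v) - g1 x) ^ 2 ≤ 0 := by
    refine ge_of_tendsto hlim ?_
    filter_upwards [self_mem_nhdsWithin] with ε hε using key ε hε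
  have hD0 : ∫ x in {x : ι → ℝ | ‖x‖ ≤ T}, (g1 (x + v) - g1 x) ^ 2 = 0 :=
    le_antisymm hD (integral_nonneg fun x => sq_nonneg _)
  have hae := (integral_eq_zero_iff_of_nonneg (fun x => sq_nonneg _) hdiff.integrableOn).1 hD0
  have hae' := (ae_restrict_iff' (msK T)).1 hae
  filter_upwards [hae'] with x hx hxT
  have h1 := hx hxT
  have h2 : g1 (x + v) - g1 x = 0 := by
    have : (g1 (x + v) - g1 x) ^ 2 = 0 := h1
    exact pow_eq_zero_iff (two_ne_zero) |>.1 this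
  have h3 : ‖x + v‖ ≤ R + 1 := by
    have := norm_add_le x v
    linarith
  have h4 : ‖x‖ ≤ R + 1 := by
    have := norm_nonneg v
    linarith
  simp only [hg1, if_pos h3, if_pos h4] at h2
  linarith

end

theorem l3_st (hMo : MoStatement) : L3Statement := by
  intro ι _ _ g φ hg hc hφ hl
  have hv : ∀ v : ι → ℝ, ∀ᵐ x, g (x + v) = g x := by
    intro v
    have h := ae_all_iff.2 fun n : ℕ => t4 hMo g φ hc hφ hl v n
    filter_upwards [h] with x hx
    obtain ⟨n, hn⟩ := exists_nat_ge ‖x‖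
    exact hx n hn
  set g' := hg.mk g with hg'
  have hgm : StronglyMeasurable g' := hg.stronglyMeasurable_mk
  have hgg : g =ᵐ[volume] g' := hg.ae_eq_mk
  have hv' : ∀ v : ι → ℝ, ∀ᵐ x, g' (x + v) = g' x := by
    intro v
    have h1 : (fun x => g (x + v)) =ᵐ[volume] fun x => g' (x + v) :=
      (measurePreserving_add_right volume v).quasiMeasurePreserving.ae_eq_comp hgg
    filter_upwards [hv v, hgg, h1] with x h2 h3 h4
    rw [← h4, h2, h3]
  have hms : MeasurableSet {z : (ι → ℝ) × (ι → ℝ) | g' (z.2 + z.1) = g' z.2} := by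
    refine measurableSet_eq_fun ?_ ?_
    · exact hgm.measurable.comp (measurable_snd.add measurable_fst)
    · exact hgm.measurable.comp measurable_snd
  have hp : ∀ᵐ z ∂((volume : Measure (ι → ℝ)).prod (volume : Measure (ι → ℝ))),
      g' (z.2 + z.1) = g' z.2 := by
    rw [Measure.ae_prod_iff_ae_ae hms]
    exact ae_of_all _ fun v => hv' v
  have hp2 : ∀ᵐ z ∂((volume : Measure (ι → ℝ)).prod (volume : Measure (ι → ℝ))),
      g' (z.1 + z.2) = g' z.1 := by
    exact (Measure.measurePreserving_swap (μ := (volume : Measure (ι → ℝ)))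
      (ν := (volume : Measure (ι → ℝ)))).quasiMeasurePreserving.ae hp
  have hp3 := Measure.ae_ae_of_ae_prod hp2
  obtain ⟨x, hx⟩ := hp3.exists
  refine ⟨g' x, ?_⟩
  have h5 : ∀ᵐ y : ι → ℝ, g' (x + (y - x)) = g' x := by
    exact (measurePreserving_sub_right volume x).quasiMeasurePreserving.ae hx
  filter_upwards [h5, hgg] with y hy hy'
  rw [hy', ← hy]
  congr 1
  abel

end Pool.Agent.Lib.MP_fa837f_gt.P2.H46
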